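import Pool.Agent.MP_d5eec5_gt.H77.KNum

/-! Zigzags and end turns lift to descending diagrams. -/

set_option autoImplicit false

namespace Pool.Agent.MP_d5eec5_gt.H77

open Pool.Agent.MP_d5eec5_gt.H48 Kind

/-- Shift the numbers from `c` on by two. -/
def tlbUp (c x : ℕ) : ℕ := if x < c then x else x + 2

/-- Lower the numbers above `c` by two. -/
def tlbDn (c x : ℕ) : ℕ := if x ≤ c then x else x - 2

/-- The three arcs of a zigzag: `s` below, `a` above, `b` in the middle. -/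
def TlbZ (s a b : ℕ) : Prop :=
  (a % 2 = 1 ∧ b = a + 1 ∧ s = a + 2) ∨ (s % 2 = 0 ∧ b = s + 1 ∧ a = s + 2)

/-- The two arcs of an end turn. -/
def TlbE (e : Bool) (s t : ℕ) : Prop :=
  (e = true ∧ s % 2 = 0 ∧ t = s + 1) ∨ (e = false ∧ t % 2 = 0 ∧ s = t + 1)

theorem tlbUp_inj (c : ℕ) : Function.Injective (tlbUp c) := by
  intro x y h
  unfold tlbUp at h
  split_ifs at h <;> omega

theorem tlb_mapUp {d : Bool} {l l' C : List ℕ} {w : List Gen} (h : Num d l w l' C)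
    (hn : (l ++ C).Nodup) (c : ℕ)
    (hcup : ∀ t, t + 1 = c → t % 2 = 1 → t ∈ C → t + 1 ∈ C → False)
    (hcap : ∀ t, t + 1 = c → t % 2 = 0 → t ∈ l ++ C → t + 1 ∈ l ++ C → t ∉ l' → t + 1 ∉ l' →
      False) :
    Num d (l.map (tlbUp c)) w (l'.map (tlbUp c)) (C.map (tlbUp c)) := by
  refine h.map hn _ (fun t _ => ?_) (fun s _ t _ hst => ?_) (fun t ho h1 h2 => ?_)
    (fun t he h1 h2 h3 h4 => ?_)
  · unfold tlbUp; split_ifs <;> omega
  · unfold tlbUp; split_ifs <;> omega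
  · have : t + 1 ≠ c := fun e => hcup t e (Nat.odd_iff.mp ho) h1 h2
    unfold tlbUp; split_ifs <;> omega
  · have : t + 1 ≠ c := fun e => hcap t e (Nat.even_iff.mp he) h1 h2 h3 h4
    unfold tlbUp; split_ifs <;> omega

theorem tlb_mapDn {d : Bool} {l l' C : List ℕ} {w : List Gen} (h : Num d l w l' C)
    (hn : (l ++ C).Nodup) (c : ℕ) (h1 : c + 1 ∉ l ++ C) (h2 : c ∉ l ++ C ∨ c + 2 ∉ l ++ C) :
    Num d (l.map (tlbDn c)) w (l'.map (tlbDn c)) (C.map (tlbDn c)) := by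
  have k1 : ∀ t ∈ l ++ C, t ≠ c + 1 := fun t ht e => h1 (e ▸ ht)
  have k2 : ∀ s ∈ l ++ C, ∀ t ∈ l ++ C, s = c → t = c + 2 → False := by
    rintro s hs t ht rfl rfl
    exact h2.elim (fun q => q hs) (fun q => q ht)
  refine h.map hn _ (fun t ht => ?_) (fun s hs t ht hst => ?_) (fun t _ q1 q2 => ?_)
    (fun t _ q1 q2 _ _ => ?_)
  · have := k1 t ht
    unfold tlbDn; split_ifs <;> omega
  · have := k1 t ht
    have := k1 s hs
    have : ¬ (s = c ∧ t = c + 2) := fun q => k2 s hs t ht q.1 q.2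
    unfold tlbDn; split_ifs <;> omega
  · have := k1 t (List.mem_append_right _ q1)
    have := k1 _ (List.mem_append_right _ q2)
    unfold tlbDn; split_ifs <;> omega
  · have := k1 t q1
    have := k1 _ q2
    unfold tlbDn; split_ifs <;> omega

theorem tlb_split {m : List ℕ} {p : ℕ} (h : p + 1 ≤ m.length) :
    ∃ l₁ s l₂, m = l₁ ++ s :: l₂ ∧ l₁.length = p :=
  ⟨m.take p, m[p], m.drop (p + 1), by simp, by simp; omega⟩

/-- Removal of a zigzag. -/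
theorem tlb_rem {u v : List Gen} {l₁ l₂ C₁ C₃ : List ℕ} {s a b : ℕ}
    (hu : Num true [] u (l₁ ++ s :: l₂) C₁) (hv : Num true (l₁ ++ a :: l₂) v [] C₃)
    (hn : (a :: b :: (C₁ ++ C₃)).Nodup) (hz : TlbZ s a b) :
    ∃ C, Num true [] (u ++ v) [] C ∧ C.Nodup := by
  simp only [List.nodup_cons, List.mem_cons, not_or] at hn
  obtain ⟨⟨hab, ha⟩, hb, hn⟩ := hn
  have hm : (l₁ ++ s :: l₂ ++ C₃).Nodup := hu.nodup_append (by simpa using hn)
  have hsub : l₁ ++ s :: l₂ ⊆ C₁ := by simpa using hu.subset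
  have hs : s ∉ l₁ ++ l₂ ++ C₃ := by
    have := (List.perm_middle.append_right C₃).nodup_iff.mp hm
    exact (List.nodup_cons.mp this).1
  have hin : ∀ x ∈ l₁ ++ l₂ ++ C₃, x ∈ C₁ ++ C₃ := by
    intro x hx
    simp only [List.mem_append] at hx ⊢
    rcases hx with (hx | hx) | hx
    · exact Or.inl (hsub (by simp [hx]))
    · exact Or.inl (hsub (by simp [hx]))
    · exact Or.inr hx
  have hm' : (l₁ ++ a :: l₂ ++ C₃).Nodup := by
    refine (List.perm_middle.append_right C₃).nodup_iff.mpr (List.nodup_cons.mpr ⟨?_, ?_⟩)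
    · exact fun h => ha (hin a h)
    · exact (List.nodup_cons.mp ((List.perm_middle.append_right C₃).nodup_iff.mp hm)).2
  have hmem : ∀ x, x ≠ a → x ∉ l₁ ++ l₂ ++ C₃ → x ∉ l₁ ++ a :: l₂ ++ C₃ := by
    intro x h1 h2 h3
    have := (List.perm_middle.append_right C₃).subset h3
    rcases List.mem_cons.mp this with h | h
    · exact h1 h
    · exact h2 h
  have haC : a ∉ [] ++ C₁ := fun h => ha (List.mem_append_left _ (by simpa using h))
  have hbC : b ∉ [] ++ C₁ := fun h => hb (List.mem_append_left _ (by simpa using h))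
  have hbv : b ∉ l₁ ++ a :: l₂ ++ C₃ := hmem b (Ne.symm hab) fun h => hb (hin b h)
  have hn1 : ([] ++ C₁).Nodup := by simpa using hn.of_append_left
  have fin : ∀ c, tlbDn c s = tlbDn c a → c + 1 = b → (a = c ∨ a = c + 2) →
      Num true ([].map (tlbDn c)) u ((l₁ ++ s :: l₂).map (tlbDn c)) (C₁.map (tlbDn c)) →
      Num true ((l₁ ++ a :: l₂).map (tlbDn c)) v ([].map (tlbDn c)) (C₃.map (tlbDn c)) →
      ∃ C, Num true [] (u ++ v) [] C ∧ C.Nodup := by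
    intro c e e1 e2 q1 q2
    simp only [List.map_append, List.map_cons, List.map_nil] at q1 q2
    rw [e] at q1
    refine ⟨_, q1.append q2, ?_⟩
    rw [← List.map_append]
    refine hn.map_on fun x hx y hy hxy => ?_
    have x1 : x ≠ a := fun h => ha (h ▸ hx)
    have x2 : x ≠ b := fun h => hb (h ▸ hx)
    have y1 : y ≠ a := fun h => ha (h ▸ hy)
    have y2 : y ≠ b := fun h => hb (h ▸ hy)
    unfold tlbDn at hxy
    split_ifs at hxy <;> omega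
  rcases hz with ⟨_, rfl, rfl⟩ | ⟨_, rfl, rfl⟩
  · exact fin a (by simp [tlbDn]) rfl (Or.inl rfl) (tlb_mapDn hu hn1 a hbC (Or.inl haC))
      (tlb_mapDn hv hm' a hbv (Or.inr (hmem _ (by omega) hs)))
  · exact fin s (by simp [tlbDn]) rfl (Or.inr rfl) (tlb_mapDn hu hn1 s hbC (Or.inr haC))
      (tlb_mapDn hv hm' s hbv (Or.inl (hmem _ (by omega) hs)))

theorem tlb_up_congr {s : ℕ} {l : List ℕ} (h : s ∉ l) :
    l.map (tlbUp (s + 1)) = l.map (tlbUp s) := by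
  refine List.map_congr_left fun x hx => ?_
  have : x ≠ s := fun e => h (e ▸ hx)
  unfold tlbUp
  split_ifs <;> omega

theorem tlb_fresh (c : ℕ) {l : List ℕ} (h : l.Nodup) :
    (c :: (c + 1) :: l.map (tlbUp c)).Nodup := by
  refine List.nodup_cons.mpr ⟨?_, List.nodup_cons.mpr ⟨?_, h.map (tlbUp_inj c)⟩⟩
  · simp only [List.mem_cons, List.mem_map, not_or, not_exists, not_and]
    refine ⟨by omega, fun x _ => ?_⟩
    unfold tlbUp; split_ifs <;> omega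
  · simp only [List.mem_map, not_exists, not_and]
    intro x _
    unfold tlbUp; split_ifs <;> omega

/-- The lower part can be shifted at an odd place next to a number of its top state. -/
theorem tlb_low {u : List Gen} {m C₁ : List ℕ} {s c : ℕ} (hu : Num true [] u m C₁)
    (hn : C₁.Nodup) (hs : s ∈ m) (hc : c % 2 = 1) (hsc : c = s ∨ c = s + 1) :
    Num true [] u (m.map (tlbUp c)) (C₁.map (tlbUp c)) := by
  refine tlb_mapUp hu (by simpa using hn) c (fun t e h _ _ => by omega)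
    (fun t e _ _ _ h1 h2 => ?_)
  rcases hsc with rfl | rfl
  · exact h2 (e ▸ hs)
  · have : t = s := by omega
    exact h1 (this ▸ hs)

/-- Insertion of a zigzag. -/
theorem tlb_ins {u v : List Gen} {l₁ l₂ C₁ C₃ : List ℕ} {s : ℕ}
    (hu : Num true [] u (l₁ ++ s :: l₂) C₁) (hv : Num true (l₁ ++ s :: l₂) v [] C₃)
    (hn : (C₁ ++ C₃).Nodup) :
    ∃ k₁ k₂ D₁ D₃ s' a b, k₁.length = l₁.length ∧ Num true [] u (k₁ ++ s' :: k₂) D₁ ∧
      Num true (k₁ ++ a :: k₂) v [] D₃ ∧ (a :: b :: (D₁ ++ D₃)).Nodup ∧ TlbZ s' a b := by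
  have hm : (l₁ ++ s :: l₂ ++ C₃).Nodup := hu.nodup_append (by simpa using hn)
  have hs : s ∉ l₁ ++ l₂ ++ C₃ :=
    (List.nodup_cons.mp ((List.perm_middle.append_right C₃).nodup_iff.mp hm)).1
  simp only [List.mem_append, not_or] at hs
  obtain ⟨⟨s1, s2⟩, s3⟩ := hs
  have hsm : s ∈ l₁ ++ s :: l₂ := by simp
  rcases Nat.mod_two_eq_zero_or_one s with hp | hp
  · have q1 := tlb_low hu hn.of_append_left hsm (c := s + 1) (by omega) (Or.inr rfl)
    have q2 := tlb_mapUp hv hm s (fun t e _ _ h => s3 (e ▸ h)) (fun t e h _ _ _ _ => by omega)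
    simp only [List.map_append, List.map_cons, List.map_nil] at q1 q2
    rw [← tlb_up_congr s1, ← tlb_up_congr s2, ← tlb_up_congr s3] at q2
    refine ⟨_, _, _, _, _, _, s + 1, List.length_map _, q1, q2, ?_, Or.inr ?_⟩
    · have := tlb_fresh (s + 1) hn
      rw [List.map_append] at this
      have e : tlbUp s s = s + 1 + 1 := by simp [tlbUp]
      rw [e]
      exact (List.Perm.swap _ _ _).nodup_iff.mp this
    · simp [tlbUp, hp]
  · have q1 := tlb_low hu hn.of_append_left hsm (c := s) hp (Or.inl rfl)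
    have q2 := tlb_mapUp hv hm (s + 1)
      (fun t e _ h _ => s3 ((show t = s by omega) ▸ h)) (fun t e h _ _ _ _ => by omega)
    simp only [List.map_append, List.map_cons, List.map_nil] at q1 q2
    rw [tlb_up_congr s1, tlb_up_congr s2, tlb_up_congr s3] at q2
    refine ⟨_, _, _, _, _, _, s + 1, List.length_map _, q1, q2, ?_, Or.inl ?_⟩
    · have := tlb_fresh s hn
      rw [List.map_append] at this
      have e : tlbUp (s + 1) s = s := by simp [tlbUp]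
      rw [e]
      exact this
    · simp [tlbUp, hp]

/-- Insertion of an end turn. -/
theorem tlb_insE {u v : List Gen} {l₁ l₂ C₁ C₃ : List ℕ} {s : ℕ} {e : Bool}
    (hu : Num true [] u (l₁ ++ s :: l₂) C₁) (hv : Num true (l₁ ++ l₂) v [] C₃)
    (hn : (C₁ ++ C₃).Nodup) (he : Even s ↔ e = true) :
    ∃ k₁ k₂ D₁ D₃ s' t, k₁.length = l₁.length ∧ Num true [] u (k₁ ++ s' :: k₂) D₁ ∧
      Num true (k₁ ++ k₂) v [] D₃ ∧ (t :: (D₁ ++ D₃)).Nodup ∧ TlbE e s' t := by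
  have hm : (l₁ ++ s :: l₂ ++ C₃).Nodup := hu.nodup_append (by simpa using hn)
  obtain ⟨hs, hm'⟩ := List.nodup_cons.mp ((List.perm_middle.append_right C₃).nodup_iff.mp hm)
  have hs : s ∉ l₁ ++ l₂ ++ C₃ := hs
  have hm' : (l₁ ++ l₂ ++ C₃).Nodup := hm'
  have s3 : s ∉ C₃ := fun h => hs (List.mem_append_right _ h)
  have hsm : s ∈ l₁ ++ s :: l₂ := by simp
  rw [Nat.even_iff] at he
  rcases Nat.mod_two_eq_zero_or_one s with hp | hp
  · have q1 := tlb_low hu hn.of_append_left hsm (c := s + 1) (by omega) (Or.inr rfl)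
    have q2 := tlb_mapUp hv hm' (s + 1) (fun t e h _ _ => by omega)
      (fun t e _ h _ _ _ => hs ((show t = s by omega) ▸ h))
    simp only [List.map_append, List.map_cons, List.map_nil] at q1 q2
    refine ⟨_, _, _, _, _, s + 1, List.length_map _, q1, q2, ?_, Or.inl ?_⟩
    · have := tlb_fresh (s + 1) hn
      rw [List.map_append] at this
      exact this.sublist (List.Sublist.cons_cons _ (List.sublist_cons_self _ _))
    · simp [tlbUp, hp, he.mp hp]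
  · have q1 := tlb_low hu hn.of_append_left hsm (c := s) hp (Or.inl rfl)
    have q2 := tlb_mapUp hv hm' s (fun t e h _ _ => by omega)
      (fun t e _ _ h _ _ => hs (e ▸ h))
    simp only [List.map_append, List.map_cons, List.map_nil] at q1 q2
    refine ⟨_, _, _, _, _, s + 1, List.length_map _, q1, q2, ?_, Or.inr ⟨?_, by omega, ?_⟩⟩
    · have := tlb_fresh s hn
      rw [List.map_append] at this
      exact (List.nodup_cons.mp this).2
    · cases e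
      · rfl
      · have := he.mpr rfl
        omega
    · simp [tlbUp]

theorem tlb_zig {d : Bool} {m m' C : List ℕ} {p : ℕ} :
    Num d m [(p, cup), (p + 1, cap)] m' C ↔ ∃ l₁ l₂ s a b, l₁.length = p ∧ m = l₁ ++ s :: l₂ ∧
      m' = l₁ ++ a :: l₂ ∧ C = [a, b] ∧ TlbZ s a b := by
  constructor
  · intro h
    obtain ⟨l₁, l₂, x, y, C', rfl, e1, ⟨rfl, t, ht, hy⟩, g1, rfl⟩ := Num.cons_iff.mp h
    obtain ⟨k₁, k₂, x', y', C'', e, e2, ⟨rfl, s, hs, hx⟩, g2, rfl⟩ := Num.cons_iff.mp g1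
    obtain ⟨rfl, rfl⟩ := Num.nil_iff.mp g2
    clear h g1 g2
    rw [Nat.odd_iff] at ht
    rw [Nat.even_iff] at hs
    have key : ∀ a b c c', y = [a, b] → x' = [c, c'] →
        k₁ = l₁ ++ [a] ∧ b = c ∧ l₂ = c' :: k₂ := by
      rintro a b c c' rfl rfl
      have e' : (l₁ ++ [a]) ++ b :: l₂ = k₁ ++ c :: c' :: k₂ := by simpa using e
      obtain ⟨q1, q2⟩ := List.append_inj e' (by simp; omega)
      simp only [List.cons.injEq] at q2
      exact ⟨q1.symm, q2.1, q2.2⟩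
    rcases hy with hy | hy <;> rcases hx with hx | hx <;>
      obtain ⟨rfl, q, rfl⟩ := key _ _ _ _ hy hx <;> subst hy hx
    · exact ⟨l₁, k₂, s + 1, t, t + 1, e1, by simp, by simp, by simp, Or.inl (by omega)⟩
    · omega
    · omega
    · exact ⟨l₁, k₂, s, t + 1, t, e1, by simp, by simp, by simp, Or.inr (by omega)⟩
  · rintro ⟨l₁, l₂, s, a, b, rfl, rfl, rfl, rfl, hz⟩
    refine Num.cons_iff.mpr ⟨l₁, s :: l₂, [], [a, b], [], by simp, rfl, ⟨rfl, ?_⟩,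
      Num.cons_iff.mpr ⟨l₁ ++ [a], l₂, [b, s], [], [], by simp, by simp, ⟨rfl, ?_⟩,
        Num.nil_iff.mpr ⟨by simp, rfl⟩, by simp⟩, by simp⟩
    · rcases hz with ⟨h, rfl, rfl⟩ | ⟨h, rfl, rfl⟩
      · exact ⟨a, Nat.odd_iff.mpr h, Or.inl rfl⟩
      · exact ⟨s + 1, Nat.odd_iff.mpr (by omega), Or.inr rfl⟩
    · rcases hz with ⟨h, rfl, rfl⟩ | ⟨h, rfl, rfl⟩
      · exact ⟨a + 1, Nat.even_iff.mpr (by omega), Or.inl rfl⟩
      · exact ⟨s, Nat.even_iff.mpr h, Or.inr rfl⟩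

theorem tlb_zag {d : Bool} {m m' C : List ℕ} {p : ℕ} :
    Num d m [(p + 1, cup), (p, cap)] m' C ↔ ∃ l₁ l₂ s a b, l₁.length = p ∧ m = l₁ ++ s :: l₂ ∧
      m' = l₁ ++ a :: l₂ ∧ C = [b, a] ∧ TlbZ s a b := by
  constructor
  · intro h
    obtain ⟨l₁, l₂, x, y, C', rfl, e1, ⟨rfl, t, ht, hy⟩, g1, rfl⟩ := Num.cons_iff.mp h
    obtain ⟨k₁, k₂, x', y', C'', e, e2, ⟨rfl, s, hs, hx⟩, g2, rfl⟩ := Num.cons_iff.mp g1
    obtain ⟨rfl, rfl⟩ := Num.nil_iff.mp g2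
    clear h g1 g2
    rw [Nat.odd_iff] at ht
    rw [Nat.even_iff] at hs
    have key : ∀ a b c c', y = [a, b] → x' = [c, c'] →
        l₁ = k₁ ++ [c] ∧ a = c' ∧ k₂ = b :: l₂ := by
      rintro a b c c' rfl rfl
      have e' : l₁ ++ a :: b :: l₂ = (k₁ ++ [c]) ++ c' :: k₂ := by simpa using e
      obtain ⟨q1, q2⟩ := List.append_inj e' (by simp; omega)
      simp only [List.cons.injEq] at q2
      exact ⟨q1, q2.1, q2.2.symm⟩
    rcases hy with hy | hy <;> rcases hx with hx | hx <;>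
      obtain ⟨rfl, q, rfl⟩ := key _ _ _ _ hy hx <;> subst hy hx
    · exact ⟨k₁, l₂, s, t + 1, t, e2, by simp, by simp, by simp, Or.inr (by omega)⟩
    · omega
    · omega
    · exact ⟨k₁, l₂, s + 1, t, t + 1, e2, by simp, by simp, by simp, Or.inl (by omega)⟩
  · rintro ⟨l₁, l₂, s, a, b, rfl, rfl, rfl, rfl, hz⟩
    refine Num.cons_iff.mpr ⟨l₁ ++ [s], l₂, [], [b, a], [], by simp, by simp, ⟨rfl, ?_⟩,
      Num.cons_iff.mpr ⟨l₁, a :: l₂, [s, b], [], [], by simp, rfl, ⟨rfl, ?_⟩,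
        Num.nil_iff.mpr ⟨by simp, rfl⟩, by simp⟩, by simp⟩
    · rcases hz with ⟨h, rfl, rfl⟩ | ⟨h, rfl, rfl⟩
      · exact ⟨a, Nat.odd_iff.mpr h, Or.inr rfl⟩
      · exact ⟨s + 1, Nat.odd_iff.mpr (by omega), Or.inl rfl⟩
    · rcases hz with ⟨h, rfl, rfl⟩ | ⟨h, rfl, rfl⟩
      · exact ⟨a + 1, Nat.even_iff.mpr (by omega), Or.inr rfl⟩
      · exact ⟨s, Nat.even_iff.mpr h, Or.inl rfl⟩

theorem tlb_endZ {e : Bool} {s t c : ℕ} (ht : Odd t ↔ e = true) (hc : Even c)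
    (h : (t = c ∧ s = c + 1) ∨ (t = c + 1 ∧ s = c)) : TlbE e s t := by
  rw [Nat.odd_iff] at ht
  rw [Nat.even_iff] at hc
  cases e
  · have : ¬ t % 2 = 1 := fun q => by simpa using ht.mp q
    exact Or.inr ⟨rfl, by omega, by omega⟩
  · have := ht.mpr rfl
    exact Or.inl ⟨rfl, by omega, by omega⟩

theorem TlbE.odd {e : Bool} {s t : ℕ} (h : TlbE e s t) : Odd t ↔ e = true := by
  rw [Nat.odd_iff]
  rcases h with ⟨rfl, h, rfl⟩ | ⟨rfl, h, rfl⟩ <;> simp <;> omega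

theorem TlbE.even {e : Bool} {s t : ℕ} (h : TlbE e s t) : Even s ↔ e = true := by
  rw [Nat.even_iff]
  rcases h with ⟨rfl, h, rfl⟩ | ⟨rfl, h, rfl⟩ <;> simp <;> omega

theorem tlb_endl {d e : Bool} {m m' C : List ℕ} {p : ℕ} :
    Num d m [(p, up e), (p, cap)] m' C ↔ ∃ l₁ l₂ s t, l₁.length = p ∧ m = l₁ ++ s :: l₂ ∧
      m' = l₁ ++ l₂ ∧ C = [t] ∧ TlbE e s t := by
  constructor
  · intro h
    obtain ⟨l₁, l₂, x, y, C', rfl, e1, ⟨rfl, t, rfl, ht⟩, g1, rfl⟩ := Num.cons_iff.mp h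
    obtain ⟨k₁, k₂, x', y', C'', q, e2, ⟨rfl, s, hs, hx⟩, g2, rfl⟩ := Num.cons_iff.mp g1
    obtain ⟨rfl, rfl⟩ := Num.nil_iff.mp g2
    clear h g1 g2
    have key : ∀ c c', x' = [c, c'] → k₁ = l₁ ∧ t = c ∧ l₂ = c' :: k₂ := by
      rintro c c' rfl
      have e' : l₁ ++ t :: l₂ = k₁ ++ c :: c' :: k₂ := by simpa using q
      obtain ⟨q1, q2⟩ := List.append_inj e' (by omega)
      simp only [List.cons.injEq] at q2
      exact ⟨q1.symm, q2.1, q2.2⟩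
    rcases hx with hx | hx <;> obtain ⟨rfl, q', rfl⟩ := key _ _ hx <;> subst hx
    · exact ⟨k₁, k₂, s + 1, t, e1, by simp, by simp, by simp, tlb_endZ ht hs (Or.inl ⟨q', rfl⟩)⟩
    · exact ⟨k₁, k₂, s, t, e1, by simp, by simp, by simp, tlb_endZ ht hs (Or.inr ⟨q', rfl⟩)⟩
  · rintro ⟨l₁, l₂, s, t, rfl, rfl, rfl, rfl, hz⟩
    refine Num.cons_iff.mpr ⟨l₁, s :: l₂, [], [t], [], by simp, rfl, ⟨rfl, t, rfl, hz.odd⟩,
      Num.cons_iff.mpr ⟨l₁, l₂, [t, s], [], [], by simp, rfl, ⟨rfl, ?_⟩,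
        Num.nil_iff.mpr ⟨by simp, rfl⟩, by simp⟩, by simp⟩
    rcases hz with ⟨_, h, rfl⟩ | ⟨_, h, rfl⟩
    · exact ⟨s, Nat.even_iff.mpr h, Or.inr rfl⟩
    · exact ⟨t, Nat.even_iff.mpr h, Or.inl rfl⟩

theorem tlb_endr {d e : Bool} {m m' C : List ℕ} {p : ℕ} :
    Num d m [(p + 1, up e), (p, cap)] m' C ↔ ∃ l₁ l₂ s t, l₁.length = p ∧ m = l₁ ++ s :: l₂ ∧
      m' = l₁ ++ l₂ ∧ C = [t] ∧ TlbE e s t := by
  constructor
  · intro h
    obtain ⟨l₁, l₂, x, y, C', rfl, e1, ⟨rfl, t, rfl, ht⟩, g1, rfl⟩ := Num.cons_iff.mp h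
    obtain ⟨k₁, k₂, x', y', C'', q, e2, ⟨rfl, s, hs, hx⟩, g2, rfl⟩ := Num.cons_iff.mp g1
    obtain ⟨rfl, rfl⟩ := Num.nil_iff.mp g2
    clear h g1 g2
    have key : ∀ c c', x' = [c, c'] → l₁ = k₁ ++ [c] ∧ t = c' ∧ k₂ = l₂ := by
      rintro c c' rfl
      have e' : l₁ ++ t :: l₂ = (k₁ ++ [c]) ++ c' :: k₂ := by simpa using q
      obtain ⟨q1, q2⟩ := List.append_inj e' (by simp; omega)
      simp only [List.cons.injEq] at q2
      exact ⟨q1, q2.1, q2.2.symm⟩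
    rcases hx with hx | hx <;> obtain ⟨rfl, q', rfl⟩ := key _ _ hx <;> subst hx
    · exact ⟨k₁, k₂, s, t, e2, by simp, by simp, by simp, tlb_endZ ht hs (Or.inr ⟨q', rfl⟩)⟩
    · exact ⟨k₁, k₂, s + 1, t, e2, by simp, by simp, by simp, tlb_endZ ht hs (Or.inl ⟨q', rfl⟩)⟩
  · rintro ⟨l₁, l₂, s, t, rfl, rfl, rfl, rfl, hz⟩
    refine Num.cons_iff.mpr ⟨l₁ ++ [s], l₂, [], [t], [], by simp, by simp, ⟨rfl, t, rfl, hz.odd⟩,
      Num.cons_iff.mpr ⟨l₁, l₂, [s, t], [], [], by simp, rfl, ⟨rfl, ?_⟩,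
        Num.nil_iff.mpr ⟨by simp, rfl⟩, by simp⟩, by simp⟩
    rcases hz with ⟨_, h, rfl⟩ | ⟨_, h, rfl⟩
    · exact ⟨s, Nat.even_iff.mpr h, Or.inl rfl⟩
    · exact ⟨t, Nat.even_iff.mpr h, Or.inr rfl⟩

theorem tlb_dn {d e : Bool} {m m' C : List ℕ} {p : ℕ} :
    Num d m [(p, dn e)] m' C ↔ ∃ l₁ l₂ s, l₁.length = p ∧ m = l₁ ++ s :: l₂ ∧
      m' = l₁ ++ l₂ ∧ C = [] ∧ (Even s ↔ e = true) := by
  constructor
  · intro h
    obtain ⟨l₁, l₂, x, y, C', rfl, e1, ⟨rfl, t, rfl, ht⟩, g1, rfl⟩ := Num.cons_iff.mp h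
    obtain ⟨rfl, rfl⟩ := Num.nil_iff.mp g1
    exact ⟨l₁, l₂, t, e1, by simp, by simp, by simp, ht⟩
  · rintro ⟨l₁, l₂, s, rfl, rfl, rfl, rfl, hz⟩
    exact Num.cons_iff.mpr ⟨l₁, l₂, [s], [], [], by simp, rfl, ⟨rfl, s, rfl, hz⟩,
      Num.nil_iff.mpr ⟨by simp, rfl⟩, by simp⟩

theorem tlb_fl {l l' : List Gen} (hl : ∀ g ∈ l, ∀ b, g.2 ≠ cr b) (h : fl l' = fl l) : l' = l := by
  induction l generalizing l' with
  | nil =>
    cases l' with
    | nil => rfl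
    | cons g l' => simp at h
  | cons g l ih =>
    cases l' with
    | nil => simp at h
    | cons g' l' =>
      simp only [fl_cons, List.cons.injEq, Prod.mk.injEq] at h
      obtain ⟨⟨h1, h2⟩, h3⟩ := h
      rw [ih (fun x hx => hl x (List.mem_cons_of_mem _ hx)) h3]
      rcases flK_eq_iff.mp h2 with q | ⟨a, b, _, q⟩
      · rw [Prod.ext h1 q]
      · exact absurd q (hl g List.mem_cons_self b)

/-- Reduction to numberings. -/
theorem tlb_of {l r : List Gen} (hl : ∀ g ∈ l, ∀ b, g.2 ≠ cr b) (hm : Move l r ∨ Move r l)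
    (h : ∀ u v m m' C₁ C₂ C₃, Ok m.length r → Num true [] u m C₁ → Num true m l m' C₂ →
      Num true m' v [] C₃ → (C₂ ++ (C₁ ++ C₃)).Nodup →
      ∃ C, Num true [] (u ++ r ++ v) [] C ∧ C.Nodup) : TL1 l r := by
  intro u v l' hok e ⟨a1, a2, C, hC, hn⟩
  obtain rfl := tlb_fl hl e
  have hc : ∀ b, (u ++ r ++ v).countP (IsEnd b) = (u ++ l' ++ v).countP (IsEnd b) := by
    intro b
    have : r.countP (IsEnd b) = l'.countP (IsEnd b) :=
      hm.elim (fun q => ((FMove.mv q).countP_eq b).symm) fun q => (FMove.mv q).countP_eq b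
    simp only [List.countP_append, this]
  obtain ⟨m', C', C₃, h0, h3, rfl⟩ := Num.append_iff.mp hC
  obtain ⟨m, C₁, C₂, h1, h2, rfl⟩ := Num.append_iff.mp h0
  have hk : cnt 0 u = m.length := h1.ok.2
  refine ⟨r, rfl, ⟨(hc _).trans a1, (hc _).trans a2, h u v m m' C₁ C₂ C₃ (hk ▸ hok) h1 h2 h3 ?_⟩,
    hm⟩
  rw [← List.append_assoc]
  exact (List.perm_append_comm.append_right C₃).nodup_iff.mp hn

theorem tlb_join {u r v : List Gen} {m m' C₁ C₂ C₃ : List ℕ} (h1 : Num true [] u m C₁)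
    (h2 : Num true m r m' C₂) (h3 : Num true m' v [] C₃) (hn : (C₂ ++ (C₁ ++ C₃)).Nodup) :
    ∃ C, Num true [] (u ++ r ++ v) [] C ∧ C.Nodup := by
  refine ⟨_, (h1.append h2).append h3, ?_⟩
  rw [← List.append_assoc] at hn
  exact (List.perm_append_comm.append_right C₃).nodup_iff.mp hn

theorem tlb : StmtTLb := by
  refine ⟨fun p => ⟨?_, ?_⟩, fun p => ⟨?_, ?_⟩, fun p e => ⟨?_, ?_⟩, fun p e => ⟨?_, ?_⟩⟩
  · refine tlb_of (by simp) (Or.inl (Move.zig p)) fun u v m m' C₁ C₂ C₃ _ h1 h2 h3 hn => ?_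
    obtain ⟨l₁, l₂, s, a, b, -, rfl, rfl, rfl, hz⟩ := tlb_zig.mp h2
    rw [List.append_nil]
    exact tlb_rem h1 h3 hn hz
  · refine tlb_of (by simp) (Or.inr (Move.zig p)) fun u v m m' C₁ C₂ C₃ hok h1 h2 h3 hn => ?_
    obtain ⟨rfl, rfl⟩ := Num.nil_iff.mp h2
    obtain ⟨l₁, s, l₂, rfl, rfl⟩ := tlb_split (m := m') (p := p)
      (by simp only [ok_cons, win, wout] at hok; omega)
    obtain ⟨k₁, k₂, D₁, D₃, s', a, b, e, q1, q3, qn, hz⟩ := tlb_ins h1 h3 hn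
    exact tlb_join q1 (tlb_zig.mpr ⟨k₁, k₂, s', a, b, e, rfl, rfl, rfl, hz⟩) q3 qn
  · refine tlb_of (by simp) (Or.inl (Move.zag p)) fun u v m m' C₁ C₂ C₃ _ h1 h2 h3 hn => ?_
    obtain ⟨l₁, l₂, s, a, b, -, rfl, rfl, rfl, hz⟩ := tlb_zag.mp h2
    rw [List.append_nil]
    exact tlb_rem h1 h3 ((List.Perm.swap _ _ _).nodup_iff.mp hn) hz
  · refine tlb_of (by simp) (Or.inr (Move.zag p)) fun u v m m' C₁ C₂ C₃ hok h1 h2 h3 hn => ?_
    obtain ⟨rfl, rfl⟩ := Num.nil_iff.mp h2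
    obtain ⟨l₁, s, l₂, rfl, rfl⟩ := tlb_split (m := m') (p := p)
      (by simp only [ok_cons, win, wout] at hok; omega)
    obtain ⟨k₁, k₂, D₁, D₃, s', a, b, e, q1, q3, qn, hz⟩ := tlb_ins h1 h3 hn
    exact tlb_join q1 (tlb_zag.mpr ⟨k₁, k₂, s', a, b, e, rfl, rfl, rfl, hz⟩) q3
      ((List.Perm.swap _ _ _).nodup_iff.mp qn)
  · refine tlb_of (by simp) (Or.inl (Move.endl p e)) fun u v m m' C₁ C₂ C₃ _ h1 h2 h3 hn => ?_
    obtain ⟨l₁, l₂, s, t, q, rfl, rfl, rfl, hz⟩ := tlb_endl.mp h2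
    exact tlb_join h1 (tlb_dn.mpr ⟨l₁, l₂, s, q, rfl, rfl, rfl, hz.even⟩) h3 hn.of_append_right
  · refine tlb_of (by simp) (Or.inr (Move.endl p e)) fun u v m m' C₁ C₂ C₃ _ h1 h2 h3 hn => ?_
    obtain ⟨l₁, l₂, s, rfl, rfl, rfl, rfl, hz⟩ := tlb_dn.mp h2
    obtain ⟨k₁, k₂, D₁, D₃, s', t, q, q1, q3, qn, hz⟩ := tlb_insE h1 h3 hn hz
    exact tlb_join q1 (tlb_endl.mpr ⟨k₁, k₂, s', t, q, rfl, rfl, rfl, hz⟩) q3 qn
  · refine tlb_of (by simp) (Or.inl (Move.endr p e)) fun u v m m' C₁ C₂ C₃ _ h1 h2 h3 hn => ?_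
    obtain ⟨l₁, l₂, s, t, q, rfl, rfl, rfl, hz⟩ := tlb_endr.mp h2
    exact tlb_join h1 (tlb_dn.mpr ⟨l₁, l₂, s, q, rfl, rfl, rfl, hz.even⟩) h3 hn.of_append_right
  · refine tlb_of (by simp) (Or.inr (Move.endr p e)) fun u v m m' C₁ C₂ C₃ _ h1 h2 h3 hn => ?_
    obtain ⟨l₁, l₂, s, rfl, rfl, rfl, rfl, hz⟩ := tlb_dn.mp h2
    obtain ⟨k₁, k₂, D₁, D₃, s', t, q, q1, q3, qn, hz⟩ := tlb_insE h1 h3 hn hz
    exact tlb_join q1 (tlb_endr.mpr ⟨k₁, k₂, s', t, q, rfl, rfl, rfl, hz⟩) q3 qn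

end Pool.Agent.MP_d5eec5_gt.H77
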